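import Pool.Agent.H85R2.PIElem

/-! Suslin-type lemma and absolute local-global theorem: stub SUS of the PI project (helper85). -/

set_option autoImplicit false

namespace Pool.Agent.H754R2.PISus

open Matrix Pool.Agent.H85R2.PI

section A
variable {ι T : Type*} [Fintype ι] [DecidableEq ι] [Ring T]

theorem InM_row' (i : ι) (r : ι → T) (hr : r i = 0) :
    InM (El ι T) (ro (Pi.single i 1) r) := by
  have := InM_row (S := Set.univ) i r hr (fun _ => trivial)
  rwa [ElS_univ] at this

theorem InM_col' (i : ι) (c : ι → T) (hc : c i = 0) :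
    InM (El ι T) (ro c (Pi.single i 1)) := by
  have := InM_col (S := Set.univ) i c hc (fun _ => trivial)
  rwa [ElS_univ] at this

theorem ro_single_smul (l : ι) (a : T) (ρ : ι → T) :
    ro (Pi.single l a) ρ = ro (Pi.single l 1) (a • ρ) := by
  unfold ro
  congr 1
  ext k m
  simp only [vecMulVec_apply, Pi.single_apply, Pi.smul_apply, smul_eq_mul]
  split_ifs <;> simp

theorem dot_sum_single (ρ B : ι → T) (h : ∀ l, ρ l * B l = 0) (t : Finset ι) :
    ρ ⬝ᵥ (∑ l ∈ t, (Pi.single l (B l) : ι → T)) = 0 := by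
  rw [dotProduct_sum]
  apply Finset.sum_eq_zero
  intro l _
  rw [dotProduct_single]
  exact h l

/-- rows supported on two indices -/
theorem InM_two (v ρ : ι → T) (i k p : ι) (hpi : p ≠ i) (hpk : p ≠ k)
    (hρ : ∀ l, l ≠ i → l ≠ k → ρ l = 0) (h : ρ ⬝ᵥ v = 0) : InM (El ι T) (ro v ρ) := by
  obtain ⟨A, hA⟩ : ∃ A : ι → T, A = fun l => if l = i ∨ l = k then v l else 0 := ⟨_, rfl⟩
  obtain ⟨B, hB⟩ : ∃ B : ι → T, B = fun l => if l = i ∨ l = k then 0 else v l := ⟨_, rfl⟩
  have hAB : A + B = v := by
    ext l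
    rw [hA, hB]
    simp only [Pi.add_apply]
    split_ifs <;> simp
  have hρB' : ∀ l, ρ l * B l = 0 := by
    intro l
    rw [hB]
    by_cases h1 : l = i ∨ l = k
    · simp [h1]
    · rw [not_or] at h1
      rw [hρ l h1.1 h1.2, zero_mul]
  have hρB : ρ ⬝ᵥ B = 0 := by
    unfold dotProduct
    exact Finset.sum_eq_zero (fun l _ => hρB' l)
  have hρA : ρ ⬝ᵥ A = 0 := by
    rw [← hAB, dotProduct_add, hρB, add_zero] at h
    exact h
  rw [← hAB, ← ro_add_left hρB]
  refine InM.mul ?_ ?_
  · have hX := InM_col' p A (by rw [hA]; simp [hpi, hpk])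
    have hY := InM_row' p ρ (hρ p hpi hpk)
    refine InM.comm hX hY ?_
    have hρp : ρ ⬝ᵥ (Pi.single p 1 : ι → T) = 0 := by
      rw [dotProduct_single, hρ p hpi hpk, zero_mul]
    have hpp : (Pi.single p 1 : ι → T) ⬝ᵥ (Pi.single p 1 : ι → T) = 1 := by simp
    rw [ro_mul, ro_mul, hρA, hpp, zero_smul, one_smul, vecMulVec_zero, add_zero]
    rw [ro, mul_add, mul_add, mul_one, add_mul, add_mul, one_mul, one_mul,
      vecMulVec_mul_vecMulVec, vecMulVec_mul_vecMulVec, hρp, hρA, zero_smul, zero_smul,
      vecMulVec_zero, add_zero, add_zero]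
    abel
  · have key : ∀ t : Finset ι, InM (El ι T)
        (ro (∑ l ∈ t, (Pi.single l (B l) : ι → T)) ρ) := by
      intro t
      induction t using Finset.induction_on with
      | empty => rw [Finset.sum_empty, ro_zero_left]; exact InM.one _
      | insert l t hl ih =>
        rw [Finset.sum_insert hl, ← ro_add_left (dot_sum_single ρ B hρB' t)]
        refine InM.mul ?_ ih
        rw [ro_single_smul]
        apply InM_row'
        rw [Pi.smul_apply, smul_eq_mul, hB]
        by_cases h1 : l = i ∨ l = k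
        · simp [h1]
        · have h2 := h1
          rw [not_or] at h2
          rw [hρ l h2.1 h2.2, mul_zero]
    have h1 := key Finset.univ
    have e : ∑ l, (Pi.single l (B l) : ι → T) = B := by
      ext l
      simp [Finset.sum_apply, Pi.single_apply]
    rwa [e] at h1

/-- Lemma A (Suslin, noncommutative version). -/
theorem lemmaA (h3 : ∀ i j : ι, ∃ k : ι, k ≠ i ∧ k ≠ j) (v w : ι → T) (hwv : w ⬝ᵥ v = 0)
    (i : ι) (b' s : T) (hs : ∀ x : T, s * x = x * s) (h1 : v i * b' = s) (h2 : b' * v i = s)
    (x : T) : InM (El ι T) (ro v (x • (s • w))) := by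
  have hρv : ∀ k, (Pi.single k s - Pi.single i (v k * b') : ι → T) ⬝ᵥ v = 0 := by
    intro k
    rw [sub_dotProduct, single_dotProduct, single_dotProduct, mul_assoc, h2, hs, sub_self]
  have hsum : x • (s • w) = ∑ k ∈ Finset.univ.erase i,
      (x * w k) • (Pi.single k s - Pi.single i (v k * b') : ι → T) := by
    ext l
    rw [Finset.sum_apply]
    simp only [Pi.smul_apply, Pi.sub_apply, smul_eq_mul]
    by_cases hl : l = i
    · subst hl
      have e1 : ∀ k ∈ Finset.univ.erase l,
          x * w k * ((Pi.single k s : ι → T) l - (Pi.single l (v k * b') : ι → T) l) =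
          - (x * (w k * v k) * b') := by
        intro k hk
        rw [Pi.single_eq_same, Pi.single_eq_of_ne (Finset.ne_of_mem_erase hk).symm]
        noncomm_ring
      rw [Finset.sum_congr rfl e1, Finset.sum_neg_distrib, ← Finset.sum_mul, ← Finset.mul_sum]
      have e2 : ∑ k ∈ Finset.univ.erase l, w k * v k = - (w l * v l) := by
        have := Finset.add_sum_erase Finset.univ (fun k => w k * v k) (Finset.mem_univ l)
        have h0 : ∑ k, w k * v k = 0 := hwv
        rw [h0] at this
        exact eq_neg_of_add_eq_zero_right this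
      rw [e2, hs, ← h1]
      noncomm_ring
    · rw [Finset.sum_eq_single l]
      · rw [Pi.single_eq_same, Pi.single_eq_of_ne hl, sub_zero, hs, mul_assoc]
      · intro k _ hkl
        rw [Pi.single_eq_of_ne (Ne.symm hkl), Pi.single_eq_of_ne hl, sub_zero, mul_zero]
      · intro hl2
        exact absurd (Finset.mem_erase.2 ⟨hl, Finset.mem_univ _⟩) hl2
  rw [hsum]
  have key : ∀ t : Finset ι, InM (El ι T) (ro v (∑ k ∈ t,
      (x * w k) • (Pi.single k s - Pi.single i (v k * b') : ι → T))) := by
    intro t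
    induction t using Finset.induction_on with
    | empty => rw [Finset.sum_empty, ro_zero_right]; exact InM.one _
    | insert k t hk ih =>
      have hz : ((x * w k) • (Pi.single k s - Pi.single i (v k * b') : ι → T)) ⬝ᵥ v = 0 := by
        rw [smul_dotProduct, hρv, smul_zero]
      rw [Finset.sum_insert hk, ← ro_add_right hz]
      refine InM.mul ?_ ih
      obtain ⟨p, hp1, hp2⟩ := h3 i k
      refine InM_two v _ i k p hp1 hp2 ?_ hz
      intro l hl1 hl2
      rw [Pi.smul_apply, Pi.sub_apply, Pi.single_eq_of_ne hl1, Pi.single_eq_of_ne hl2, sub_zero,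
        smul_zero]
  exact key _

end A

section B
variable {ι : Type*} [Fintype ι] [DecidableEq ι] {Γ T : Type*} [CommRing Γ] [Ring T] [Algebra Γ T]

theorem ro_tv {i j : ι} (h : i ≠ j) (g : (Matrix ι ι T)ˣ) (y : T) :
    ((g * tv i j y * g⁻¹ : (Matrix ι ι T)ˣ) : Matrix ι ι T) =
      ro (fun k => (g : Matrix ι ι T) k i)
        (y • fun l => ((g⁻¹ : (Matrix ι ι T)ˣ) : Matrix ι ι T) j l) := by
  rw [Units.val_mul, Units.val_mul, coe_tv_ro' h, conj_ro]
  congr 1
  · ext k
    simp [mulVec, dotProduct_single]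
  · ext l
    simp [vecMul, single_dotProduct]

theorem El_normal_of_SRG
    (h3 : ∀ i j : ι, ∃ k : ι, k ≠ i ∧ k ≠ j)
    (h : SRG Γ T) : (El ι T).Normal := by
  have main : ∀ (g : (Matrix ι ι T)ˣ) (i j : ι), i ≠ j → ∀ x : T,
      g * tv i j x * g⁻¹ ∈ El ι T := by
    intro g i j hij
    let 𝔟 : Ideal Γ :=
      { carrier := {γ | ∀ x : T, g * tv i j (γ • x) * g⁻¹ ∈ El ι T}
        add_mem' := by
          intro a b ha hb x
          have : g * tv i j ((a + b) • x) * g⁻¹ =
              (g * tv i j (a • x) * g⁻¹) * (g * tv i j (b • x) * g⁻¹) := by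
            rw [add_smul, tv_add]; group
          rw [this]
          exact (El ι T).mul_mem (ha x) (hb x)
        zero_mem' := by
          intro x
          rw [zero_smul, tv_zero, mul_one, mul_inv_cancel]
          exact (El ι T).one_mem
        smul_mem' := by
          intro c a ha x
          rw [smul_eq_mul, mul_comm, mul_smul]
          exact ha _ }
    have hb : 𝔟 = ⊤ := by
      by_contra hne
      obtain ⟨m, hm, hle⟩ := Ideal.exists_le_maximal 𝔟 hne
      obtain ⟨G, hG⟩ : ∃ G : Matrix ι ι T, G = (g : Matrix ι ι T) := ⟨_, rfl⟩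
      obtain ⟨G', hG'⟩ : ∃ G' : Matrix ι ι T, G' = ((g⁻¹ : (Matrix ι ι T)ˣ) : Matrix ι ι T) :=
        ⟨_, rfl⟩
      have hGG : G' * G = 1 := by rw [hG, hG', Units.inv_mul]
      obtain ⟨z, b', s, hsm, hs1, hs2⟩ := h m hm (G i i) (G' i i)
      have hr : ∀ j', (fun l => G' j' l) ⬝ᵥ (fun k => G k i) = if j' = i then 1 else 0 := by
        intro j'
        have := congrFun (congrFun hGG j') i
        rw [Matrix.mul_apply, Matrix.one_apply] at this
        exact this
      -- the row operation
      obtain ⟨r, hrdef⟩ : ∃ r : ι → T, r = fun k => if k = i then 0 else z * G' i k := ⟨_, rfl⟩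
      obtain ⟨ε, hε, hεv⟩ := InM_row' i r (by rw [hrdef]; simp)
      -- new column
      have hbcol : ((ε : Matrix ι ι T) *ᵥ (fun k => G k i)) i =
          G i i + z * (1 - G' i i * G i i) := by
        rw [hεv, ro, add_mulVec, one_mulVec, Pi.add_apply]
        congr 1
        rw [vecMulVec_mulVec]
        have e3 : r ⬝ᵥ (fun k => G k i) = z * (1 - G' i i * G i i) := by
          have h0 := hr i
          rw [if_pos rfl] at h0
          have h4 := Finset.add_sum_erase Finset.univ (fun k => G' i k * G k i)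
            (Finset.mem_univ i)
          have h5 : ∑ k, G' i k * G k i = 1 := h0
          rw [h5] at h4
          have h6 := Finset.add_sum_erase Finset.univ (fun k => r k * G k i) (Finset.mem_univ i)
          have h7 : r ⬝ᵥ (fun k => G k i) = ∑ k, r k * G k i := rfl
          rw [h7, ← h6, ← h4]
          have h8 : r i = 0 := by rw [hrdef]; simp
          rw [h8, zero_mul, zero_add, add_sub_cancel_left, Finset.mul_sum]
          apply Finset.sum_congr rfl
          intro k hk
          rw [hrdef]
          simp only [if_neg (Finset.ne_of_mem_erase hk)]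
          rw [mul_assoc]
        rw [e3]
        simp
      have hsc : ∀ x : T, algebraMap Γ T s * x = x * algebraMap Γ T s :=
        fun x => Algebra.commutes s x
      obtain ⟨v', hv'⟩ : ∃ v' : ι → T, v' = (ε : Matrix ι ι T) *ᵥ (fun k => G k i) := ⟨_, rfl⟩
      obtain ⟨w', hw'⟩ : ∃ w' : ι → T, w' = (fun l => G' j l) ᵥ*
        ((ε⁻¹ : (Matrix ι ι T)ˣ) : Matrix ι ι T) := ⟨_, rfl⟩
      have hwv : w' ⬝ᵥ v' = 0 := by
        rw [hw', hv', ← dotProduct_mulVec, mulVec_mulVec, Units.inv_mul, one_mulVec, hr,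
          if_neg hij.symm]
      apply hsm
      apply hle
      intro x
      have hA := lemmaA h3 v' w' hwv i b' (algebraMap Γ T s) hsc
        (by rw [hv', hbcol]; exact hs1) (by rw [hv', hbcol]; exact hs2) x
      have e1 : ro v' (x • (algebraMap Γ T s • w')) =
          ((ε * (g * tv i j (s • x) * g⁻¹) * ε⁻¹ : (Matrix ι ι T)ˣ) : Matrix ι ι T) := by
        rw [Units.val_mul, Units.val_mul, ro_tv hij, conj_ro, ← hG, ← hG', ← hv']
        congr 1
        rw [hw', smul_vecMul, smul_smul]
        congr 1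
        rw [Algebra.smul_def, hsc]
      rw [e1, InM.of_unit] at hA
      have h5 := (El ι T).mul_mem ((El ι T).mul_mem ((El ι T).inv_mem hε) hA) hε
      have e2 : ε⁻¹ * (ε * (g * tv i j (s • x) * g⁻¹) * ε⁻¹) * ε =
          g * tv i j (s • x) * g⁻¹ := by group
      rw [e2] at h5
      exact h5
    intro x
    have h1 : (1 : Γ) ∈ 𝔟 := by rw [hb]; trivial
    have h2 := h1 x
    rwa [one_smul] at h2
  refine ⟨?_⟩
  intro n hn g
  have hcl : El ι T ≤ (El ι T).comap (MulAut.conj g).toMonoidHom := by
    conv_lhs => rw [El]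
    rw [Subgroup.closure_le]
    rintro _ ⟨i, j, r, rfl⟩
    show g * tv i j r * g⁻¹ ∈ El ι T
    by_cases hij : i = j
    · subst hij
      rw [tv_self, mul_one, mul_inv_cancel]
      exact (El ι T).one_mem
    · exact main g i j hij r
  exact hcl hn

end B

end Pool.Agent.H754R2.PISus
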